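import Pool.Agent.N70.EP.Stm

/-!
# Project EP (helper70), GRP2 (helper123): the even transitive action of `(B × V) ≀ S_n × H`
-/

set_option autoImplicit false

namespace Pool.Agent.N123.EP.GRP2

open Pool.Agent.H391R2 Pool.Agent.N70.EP

/-- a transitive action gives the data -/
theorem sgnIndex_of_hom {X Ω : Type} [Group X] [Fintype Ω] [DecidableEq Ω]
    (φ : X →* Equiv.Perm Ω) (ω : Ω) (htr : ∀ t, ∃ x, φ x ω = t) (m : ℕ) (e : Fin m ≃ Ω)
    (ψ : X →* ℤˣ) (hs : ∀ x, Equiv.Perm.sign (φ x) = ψ x) (P : Subgroup X)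
    (hP : ∀ x, x ∈ P ↔ φ x ω = ω) : SgnIndex X P m ψ := by
  choose g hg using htr
  have key : ∀ x y : X, ((x : X ⧸ P) = (y : X ⧸ P)) ↔ φ x ω = φ y ω := by
    intro x y
    rw [QuotientGroup.eq, hP, map_mul, map_inv, Equiv.Perm.mul_apply, Equiv.Perm.inv_eq_iff_eq]
    exact eq_comm
  refine ⟨fun t => g (e t), ⟨?_, ?_⟩, ?_⟩
  · intro s t h
    have h1 := (key _ _).1 h
    rw [hg, hg] at h1
    exact e.injective h1
  · intro q
    obtain ⟨x, rfl⟩ := QuotientGroup.mk_surjective q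
    refine ⟨e.symm (φ x ω), ?_⟩
    apply (key _ _).2
    rw [hg, Equiv.apply_symm_apply]
  · intro γ π h
    rw [← hs γ]
    have h1 : ∀ t, φ γ (e t) = e (π t) := by
      intro t
      have h2 := (key _ _).1 (h t)
      rw [map_mul, Equiv.Perm.mul_apply, hg, hg] at h2
      exact h2
    have h3 : π = (e.trans (φ γ)).trans e.symm := by
      ext t
      rw [Equiv.trans_apply, Equiv.trans_apply, h1, Equiv.symm_apply_apply]
    rw [h3]
    exact Equiv.Perm.sign_trans_trans_symm (φ γ) e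

/-- the group of order four -/
abbrev V : Type := Multiplicative (ZMod 2) × Multiplicative (ZMod 2)

lemma sign_V (w : V) : Equiv.Perm.sign (Equiv.mulLeft w) = 1 := by
  revert w
  decide

lemma card_V : Fintype.card V = 4 := by decide

lemma sign_pow_even (s : ℤˣ) {k : ℕ} (hk : Even k) : s ^ k = 1 := by
  obtain ⟨j, rfl⟩ := hk
  rw [← two_mul, pow_mul]
  rw [Int.units_sq, one_pow]

variable {H B : Type} [Group H] [Group B] (a : B →* H) (n : ℕ)

/-- the group -/
abbrev XX (H B : Type) [Group H] [Group B] (n : ℕ) : Type := Wr (B × V) n × H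

/-- the map -/
def act (x : XX H B n) (t : Fin n × V × H) : Fin n × V × H :=
  (x.1.right t.1, (x.1.left (x.1.right t.1)).2 * t.2.1,
    x.2 * t.2.2 * (a (x.1.left (x.1.right t.1)).1)⁻¹)

lemma act_mul (x y : XX H B n) (t : Fin n × V × H) :
    act a n (x * y) t = act a n x (act a n y t) := by
  unfold act
  have h1 : (x * y).1.right t.1 = x.1.right (y.1.right t.1) := rfl
  have h2 : (x * y).1.left ((x * y).1.right t.1) =
      x.1.left (x.1.right (y.1.right t.1)) * y.1.left (y.1.right t.1) := by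
    rw [h1]
    have h3 : (x * y).1.left (x.1.right (y.1.right t.1)) =
      x.1.left (x.1.right (y.1.right t.1)) * y.1.left (x.1.right⁻¹ (x.1.right (y.1.right t.1))) :=
      rfl
    rw [h3]
    exact congrArg (fun z => x.1.left (x.1.right (y.1.right t.1)) * y.1.left z)
      (Equiv.symm_apply_apply x.1.right _)
  refine Prod.ext h1 (Prod.ext ?_ ?_)
  · simp only
    rw [h2, Prod.snd_mul, mul_assoc]
  · simp only
    rw [h2, Prod.fst_mul, map_mul, mul_inv_rev, Prod.snd_mul]
    simp only [mul_assoc]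

lemma act_one (t : Fin n × V × H) : act a n 1 t = t := by
  unfold act
  refine Prod.ext rfl (Prod.ext ?_ ?_)
  · change (1 : B × V).2 * t.2.1 = t.2.1
    rw [Prod.snd_one, one_mul]
  · change (1 : H) * t.2.2 * (a (1 : B × V).1)⁻¹ = t.2.2
    rw [Prod.fst_one, map_one, inv_one, mul_one, one_mul]

/-- the homomorphism to the permutations -/
def phi : XX H B n →* Equiv.Perm (Fin n × V × H) where
  toFun x := ⟨act a n x, act a n x⁻¹,
    fun t => by rw [← act_mul, inv_mul_cancel, act_one],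
    fun t => by rw [← act_mul, mul_inv_cancel, act_one]⟩
  map_one' := Equiv.ext fun t => act_one a n t
  map_mul' x y := Equiv.ext fun t => act_mul a n x y t

lemma phi_apply (x : XX H B n) (t : Fin n × V × H) : phi a n x t = act a n x t := rfl

/-- the permutations are even -/
lemma sign_phi [Fintype H] [DecidableEq H] (x : XX H B n) :
    Equiv.Perm.sign (phi a n x) = 1 := by
  have h1 : phi a n x =
      (Equiv.prodCongrRight fun i : Fin n =>
        (Equiv.prodCongrRight fun _ : V =>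
          ((Equiv.mulLeft x.2).trans (Equiv.mulRight (a (x.1.left i).1)⁻¹) : Equiv.Perm H)) *
        (Equiv.prodCongrLeft fun _ : H => (Equiv.mulLeft (x.1.left i).2 : Equiv.Perm V))) *
      (Equiv.prodCongrLeft fun _ : V × H => x.1.right) := by
    ext t <;> rfl
  rw [h1, map_mul, Equiv.Perm.sign_prodCongrRight, Equiv.Perm.sign_prodCongrLeft]
  have h2 : ∀ i : Fin n, Equiv.Perm.sign ((Equiv.prodCongrRight fun _ : V =>
          ((Equiv.mulLeft x.2).trans (Equiv.mulRight (a (x.1.left i).1)⁻¹) : Equiv.Perm H)) *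
        (Equiv.prodCongrLeft fun _ : H => (Equiv.mulLeft (x.1.left i).2 : Equiv.Perm V))) = 1 := by
    intro i
    rw [map_mul, Equiv.Perm.sign_prodCongrRight, Equiv.Perm.sign_prodCongrLeft]
    simp only [sign_V, Finset.prod_const_one, mul_one, Finset.prod_const, Finset.card_univ, card_V]
    exact sign_pow_even _ ⟨2, rfl⟩
  have h5 : Fintype.card (V × H) = 4 * Fintype.card H := by
    rw [Fintype.card_prod, card_V]
  simp only [h2, Finset.prod_const_one, one_mul, Finset.prod_const, Finset.card_univ]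
  rw [h5]
  exact sign_pow_even _ ⟨2 * Fintype.card H, by ring⟩

/-- the stabilizer -/
def PP (hn : 0 < n) : Subgroup (XX H B n) where
  carrier := {x | phi a n x (⟨0, hn⟩, 1, 1) = (⟨0, hn⟩, 1, 1)}
  one_mem' := by rw [Set.mem_ofPred_eq, map_one]; rfl
  mul_mem' := by
    intro x y hx hy
    rw [Set.mem_ofPred_eq] at hx hy ⊢
    rw [map_mul, Equiv.Perm.mul_apply, hy, hx]
  inv_mem' := by
    intro x hx
    rw [Set.mem_ofPred_eq] at hx ⊢
    rw [map_inv, Equiv.Perm.inv_eq_iff_eq, hx]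

lemma mem_PP (hn : 0 < n) (x : XX H B n) :
    x ∈ PP a n hn ↔ phi a n x (⟨0, hn⟩, 1, 1) = (⟨0, hn⟩, 1, 1) := Iff.rfl

lemma PP_right (hn : 0 < n) {x : XX H B n} (hx : x ∈ PP a n hn) : x.1.right ⟨0, hn⟩ = ⟨0, hn⟩ :=
  congrArg Prod.fst ((mem_PP a n hn x).1 hx)

lemma PP_a (hn : 0 < n) {x : XX H B n} (hx : x ∈ PP a n hn) :
    a (x.1.left ⟨0, hn⟩).1 = x.2 := by
  have h1 := congrArg (fun t => t.2.2) ((mem_PP a n hn x).1 hx)
  have h2 : x.2 * 1 * (a (x.1.left (x.1.right ⟨0, hn⟩)).1)⁻¹ = 1 := h1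
  rw [PP_right a n hn hx, mul_one, mul_inv_eq_one] at h2
  exact h2.symm

/-- the homomorphism to `B` -/
def bet (hn : 0 < n) : PP a n hn →* B where
  toFun p := (p.1.1.left ⟨0, hn⟩).1
  map_one' := rfl
  map_mul' p q := by
    have h3 : ((p * q : PP a n hn) : XX H B n).1.left ⟨0, hn⟩ =
      p.1.1.left ⟨0, hn⟩ * q.1.1.left (p.1.1.right⁻¹ ⟨0, hn⟩) := rfl
    have h4 : p.1.1.right⁻¹ (⟨0, hn⟩ : Fin n) = ⟨0, hn⟩ := by
      rw [Equiv.Perm.inv_eq_iff_eq, PP_right a n hn p.2]
    rw [h3, h4, Prod.fst_mul]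

/-- GRP2 -/
theorem t_grp2 : St_grp2 := by
  intro H B _ _ _ _ a ha n hn
  classical
  haveI : Fintype H := Fintype.ofFinite H
  refine ⟨PP a n hn, bet a n hn, ?_, ?_, ?_⟩
  · intro b
    refine ⟨⟨(⟨fun _ => (b, 1), 1⟩, a b), ?_⟩, rfl⟩
    rw [mem_PP, phi_apply]
    unfold act
    refine Prod.ext rfl (Prod.ext ?_ ?_)
    · change (1 : V) * 1 = 1
      rw [one_mul]
    · change a b * 1 * (a b)⁻¹ = 1
      rw [mul_one, mul_inv_cancel]
  · intro p
    exact PP_a a n hn p.2
  · have hcard : Fintype.card (Fin n × V × H) = 4 * Nat.card H * n := by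
      rw [Fintype.card_prod, Fintype.card_prod, Fintype.card_fin, card_V, Nat.card_eq_fintype_card]
      ring
    refine sgnIndex_of_hom (phi a n) (⟨0, hn⟩, 1, 1) ?_ _ (Fintype.equivFinOfCardEq hcard).symm 1
      (fun x => sign_phi a n x) _ (mem_PP a n hn)
    rintro ⟨i, v, k⟩
    refine ⟨(⟨fun _ => (1, v), Equiv.swap ⟨0, hn⟩ i⟩, k), ?_⟩
    rw [phi_apply]
    unfold act
    refine Prod.ext ?_ (Prod.ext ?_ ?_)
    · exact Equiv.swap_apply_left _ _
    · change v * 1 = v
      rw [mul_one]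
    · change k * 1 * (a 1)⁻¹ = k
      rw [mul_one, map_one, inv_one, mul_one]

end Pool.Agent.N123.EP.GRP2
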